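import Mathlib
import Pool.Agent.Lib.helper20.Four

set_option autoImplicit false

namespace Pool.Agent.H.MP_58c014_an

open MeasureTheory Set Pool.Agent.Lib.helper20.Four
open scoped ENNReal

variable {n : ℕ}

section
variable (P : (Fin n → ℝ) → ℝ)
  (hP : ∀ x, P x = Real.exp (-∑ j, x j) * ∏ k, ∏ j ∈ Finset.Ioi k, (x j - x k) ^ 2)
include hP

lemma P_det (x : Fin n → ℝ) : P x = Real.exp (-∑ j, x j) * (Matrix.vandermonde x).det ^ 2 := by
  rw [hP, Matrix.det_vandermonde, ← Finset.prod_pow]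
  simp_rw [Finset.prod_pow]

lemma P_nonneg (x : Fin n → ℝ) : 0 ≤ P x := by rw [P_det P hP]; positivity

lemma P_cont : Continuous P := by
  rw [show P = _ from funext hP]; fun_prop

lemma P_perm (x : Fin n → ℝ) (σ : Equiv.Perm (Fin n)) : P (x ∘ σ) = P x := by
  rw [P_det P hP, P_det P hP]
  have e : Matrix.vandermonde (x ∘ σ) = (Matrix.vandermonde x).submatrix σ id := by
    ext i j; simp [Matrix.vandermonde_apply]
  rw [e, Matrix.det_permute, mul_pow]
  have e2 : (((Equiv.Perm.sign σ : ℤˣ) : ℤ) : ℝ) ^ 2 = 1 := by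
    rcases Int.units_eq_one_or (Equiv.Perm.sign σ) with h | h <;> rw [h] <;> simp
  rw [e2, one_mul]
  congr 3
  exact Equiv.sum_comp σ x

lemma P_zero (x : Fin n → ℝ) (h : ¬ Function.Injective x) : P x = 0 := by
  rw [P_det P hP]
  have : (Matrix.vandermonde x).det = 0 := by
    by_contra h'
    exact h (Matrix.det_vandermonde_ne_zero_iff.1 h')
  simp [this]

lemma P_pos (x : Fin n → ℝ) (h : Function.Injective x) : 0 < P x := by
  rw [P_det P hP]
  have := Matrix.det_vandermonde_ne_zero_iff.2 h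
  positivity

lemma P_super (x y : Fin n → ℝ) (hx : StrictMono x) (hy : StrictMono y) :
    P x * P y ≤ P (x ⊔ y) * P (x ⊓ y) := by
  simp only [hP]
  have e : Real.exp (-∑ j, x j) * Real.exp (-∑ j, y j)
      = Real.exp (-∑ j, (x ⊔ y) j) * Real.exp (-∑ j, (x ⊓ y) j) := by
    rw [← Real.exp_add, ← Real.exp_add, ← neg_add, ← neg_add, ← Finset.sum_add_distrib,
      ← Finset.sum_add_distrib]
    congr 2
    refine Finset.sum_congr rfl (fun j _ => ?_)
    simp only [Pi.sup_apply, Pi.inf_apply]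
    rw [max_add_min]
  rw [mul_mul_mul_comm, e, mul_mul_mul_comm _ (∏ k, ∏ j ∈ Finset.Ioi k, ((x ⊔ y) j - (x ⊔ y) k) ^ 2)]
  refine mul_le_mul_of_nonneg_left ?_ (by positivity)
  rw [← Finset.prod_mul_distrib, ← Finset.prod_mul_distrib]
  refine Finset.prod_le_prod (fun _ _ => by positivity) (fun k _ => ?_)
  rw [← Finset.prod_mul_distrib, ← Finset.prod_mul_distrib]
  refine Finset.prod_le_prod (fun _ _ => by positivity) (fun j hj => ?_)
  have h1 := hx (Finset.mem_Ioi.1 hj)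
  have h2 := hy (Finset.mem_Ioi.1 hj)
  rw [← mul_pow, ← mul_pow]
  refine pow_le_pow_left₀ (by nlinarith) ?_ 2
  simp only [Pi.sup_apply, Pi.inf_apply]
  rcases le_total (x j) (y j) with a | a <;> rcases le_total (x k) (y k) with b | b <;>
    simp only [max_eq_left, max_eq_right, min_eq_left, min_eq_right, a, b] <;> nlinarith

lemma FF (g1 g2 g3 g4 : (Fin n → ℝ) → ℝ) (m1 : Measurable g1) (m2 : Measurable g2)
    (m3 : Measurable g3) (m4 : Measurable g4)
    (s1 : ∀ x (σ : Equiv.Perm (Fin n)), g1 (x ∘ σ) = g1 x)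
    (s2 : ∀ x (σ : Equiv.Perm (Fin n)), g2 (x ∘ σ) = g2 x)
    (s3 : ∀ x (σ : Equiv.Perm (Fin n)), g3 (x ∘ σ) = g3 x)
    (s4 : ∀ x (σ : Equiv.Perm (Fin n)), g4 (x ∘ σ) = g4 x)
    (n1 : ∀ x, (∀ j, 0 < x j) → 0 ≤ g1 x) (n2 : ∀ x, (∀ j, 0 < x j) → 0 ≤ g2 x)
    (n3 : ∀ x, (∀ j, 0 < x j) → 0 ≤ g3 x) (n4 : ∀ x, (∀ j, 0 < x j) → 0 ≤ g4 x)
    (i3 : IntegrableOn (fun x => P x * g3 x) {x | ∀ j, 0 < x j})
    (i4 : IntegrableOn (fun x => P x * g4 x) {x | ∀ j, 0 < x j})
    (h : ∀ x y, (∀ j, 0 < x j) → (∀ j, 0 < y j) → g1 x * g2 y ≤ g3 (x ⊔ y) * g4 (x ⊓ y)) :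
    (∫ x in {x | ∀ j, 0 < x j}, P x * g1 x) * (∫ x in {x | ∀ j, 0 < x j}, P x * g2 x)
      ≤ (∫ x in {x | ∀ j, 0 < x j}, P x * g3 x) * (∫ x in {x | ∀ j, 0 < x j}, P x * g4 x) := by
  have mO : MeasurableSet {x : Fin n → ℝ | ∀ j, 0 < x j} := by measurability
  have mS : MeasurableSet {x : Fin n → ℝ | StrictMono x} := by
    have : {x : Fin n → ℝ | StrictMono x} = ⋂ a, ⋂ b, {x | a < b → x a < x b} := by
      ext x; simp [StrictMono]
    rw [this]
    refine MeasurableSet.iInter (fun a => MeasurableSet.iInter (fun b => ?_))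
    by_cases hab : a < b
    · simpa [hab] using measurableSet_lt (measurable_pi_apply a) (measurable_pi_apply b)
    · simp [hab]
  have mP := (P_cont P hP).measurable
  let L : ((Fin n → ℝ) → ℝ) → (Fin n → ℝ) → ℝ≥0∞ := fun g =>
    {x : Fin n → ℝ | ∀ j, 0 < x j}.indicator (fun x => ENNReal.ofReal (P x * g x))
  have mL : ∀ g, Measurable g → Measurable (L g) := fun g mg =>
    (mP.mul mg).ennreal_ofReal.indicator mO
  have e1 : ∀ g, Measurable g → (∀ x, (∀ j, 0 < x j) → 0 ≤ g x) →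
      ∫ x in {x | ∀ j, 0 < x j}, P x * g x = (∫⁻ x, L g x).toReal := by
    intro g mg ng
    rw [integral_eq_lintegral_of_nonneg_ae (f := fun x => P x * g x) _
      (mP.mul mg).aestronglyMeasurable,
      lintegral_indicator mO]
    exact ae_restrict_of_forall_mem mO (fun x hx => mul_nonneg (P_nonneg P hP x) (ng x hx))
  have e2 : ∀ g, Measurable g → (∀ x (σ : Equiv.Perm (Fin n)), g (x ∘ σ) = g x) →
      ∫⁻ x, L g x = (n.factorial : ℝ≥0∞) *
        ∫⁻ x, {x : Fin n → ℝ | StrictMono x}.indicator (L g) x := by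
    intro g mg sg
    refine chamber _ (mL g mg) (fun x σ => ?_) (fun x hx => ?_)
    · by_cases hx : ∀ j, 0 < x j
      · simp only [L]
        rw [indicator_of_mem (show x ∘ σ ∈ {x : Fin n → ℝ | ∀ j, 0 < x j} from fun j => hx _),
          indicator_of_mem (show x ∈ {x : Fin n → ℝ | ∀ j, 0 < x j} from hx), P_perm P hP, sg]
      · simp only [L]
        rw [indicator_of_notMem (show x ∉ {x : Fin n → ℝ | ∀ j, 0 < x j} from hx),
          indicator_of_notMem]
        intro h'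
        exact hx (fun j => by simpa using h' (σ.symm j))
    · simp only [L, indicator]
      rw [P_zero P hP x hx]
      simp
  have f3 : ∫⁻ x, L g3 x ≠ ⊤ := by
    rw [lintegral_indicator mO]; exact (Integrable.lintegral_lt_top i3).ne
  have f4 : ∫⁻ x, L g4 x ≠ ⊤ := by
    rw [lintegral_indicator mO]; exact (Integrable.lintegral_lt_top i4).ne
  rw [e1 g1 m1 n1, e1 g2 m2 n2, e1 g3 m3 n3, e1 g4 m4 n4, ← ENNReal.toReal_mul,
    ← ENNReal.toReal_mul]
  refine ENNReal.toReal_mono (ENNReal.mul_ne_top f3 f4) ?_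
  rw [e2 g1 m1 s1, e2 g2 m2 s2, e2 g3 m3 s3, e2 g4 m4 s4, mul_mul_mul_comm,
    mul_mul_mul_comm _ (∫⁻ x, {x : Fin n → ℝ | StrictMono x}.indicator (L g3) x)]
  refine mul_le_mul_right ?_ _
  refine four (fun _ => volume) _ _ _ _ ((mL g1 m1).indicator mS) ((mL g2 m2).indicator mS)
    ((mL g3 m3).indicator mS) ((mL g4 m4).indicator mS) (fun x y => ?_)
  by_cases hx : StrictMono x
  swap
  · rw [indicator_of_notMem (show x ∉ {x : Fin n → ℝ | StrictMono x} from hx)]; simp
  by_cases hy : StrictMono y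
  swap
  · rw [indicator_of_notMem (show y ∉ {x : Fin n → ℝ | StrictMono x} from hy)]; simp
  have hs : StrictMono (x ⊔ y) := fun a b hab => max_lt_max (hx hab) (hy hab)
  have hi : StrictMono (x ⊓ y) := fun a b hab => min_lt_min (hx hab) (hy hab)
  rw [indicator_of_mem (show x ∈ {x : Fin n → ℝ | StrictMono x} from hx),
    indicator_of_mem (show y ∈ {x : Fin n → ℝ | StrictMono x} from hy),
    indicator_of_mem (show x ⊔ y ∈ {x : Fin n → ℝ | StrictMono x} from hs),
    indicator_of_mem (show x ⊓ y ∈ {x : Fin n → ℝ | StrictMono x} from hi)]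
  simp only [L]
  by_cases px : ∀ j, 0 < x j
  swap
  · rw [indicator_of_notMem (show x ∉ {x : Fin n → ℝ | ∀ j, 0 < x j} from px)]; simp
  by_cases py : ∀ j, 0 < y j
  swap
  · rw [indicator_of_notMem (show y ∉ {x : Fin n → ℝ | ∀ j, 0 < x j} from py)]; simp
  have ps : ∀ j, 0 < (x ⊔ y) j := fun j => lt_max_of_lt_left (px j)
  have pi : ∀ j, 0 < (x ⊓ y) j := fun j => lt_min (px j) (py j)
  rw [indicator_of_mem (show x ∈ {x : Fin n → ℝ | ∀ j, 0 < x j} from px),
    indicator_of_mem (show y ∈ {x : Fin n → ℝ | ∀ j, 0 < x j} from py),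
    indicator_of_mem (show x ⊔ y ∈ {x : Fin n → ℝ | ∀ j, 0 < x j} from ps),
    indicator_of_mem (show x ⊓ y ∈ {x : Fin n → ℝ | ∀ j, 0 < x j} from pi),
    ← ENNReal.ofReal_mul (mul_nonneg (P_nonneg P hP _) (n1 _ px)),
    ← ENNReal.ofReal_mul (mul_nonneg (P_nonneg P hP _) (n3 _ ps))]
  refine ENNReal.ofReal_le_ofReal ?_
  rw [mul_mul_mul_comm, mul_mul_mul_comm (P (x ⊔ y))]
  exact mul_le_mul (P_super P hP x y hx hy) (h x y px py) (mul_nonneg (n1 _ px) (n2 _ py))
    (mul_nonneg (P_nonneg P hP _) (P_nonneg P hP _))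

lemma dom (g : (Fin n → ℝ) → ℝ) (mg : Measurable g) (C : ℝ)
    (hg : ∀ x, (∀ j, 0 < x j) → |g x| ≤ C * ∏ j, ((1 + x j) ^ 2 * x j ^ (-(1 / 2) : ℝ))) :
    IntegrableOn (fun x => P x * g x) {x | ∀ j, 0 < x j} := by
  have mO : MeasurableSet {x : Fin n → ℝ | ∀ j, 0 < x j} := by measurability
  set N := 2 * n * n + 2 with hN
  have w : IntegrableOn (fun x : ℝ => Real.exp (-x) * ((1 + x) ^ N * x ^ (-(1 / 2) : ℝ)))
      (Ioi 0) := by
    have a1 := Real.GammaIntegral_convergent (s := 1 / 2) (by norm_num)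
    have a2 := Real.GammaIntegral_convergent (s := N + 1 / 2) (by positivity)
    refine Integrable.mono' ((a1.add a2).const_mul (2 ^ (N - 1)))
      (Measurable.aestronglyMeasurable (by fun_prop)) ?_
    refine ae_restrict_of_forall_mem measurableSet_Ioi (fun x hx => ?_)
    have hx : 0 < x := hx
    rw [Real.norm_of_nonneg (by positivity)]
    have b := add_pow_le zero_le_one hx.le N
    have e1 : x ^ ((N : ℝ) + 1 / 2 - 1) = x ^ N * x ^ (-(1 / 2) : ℝ) := by
      rw [← Real.rpow_natCast, ← Real.rpow_add hx]; congr 1; ring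
    have e2 : x ^ ((1 : ℝ) / 2 - 1) = x ^ (-(1 / 2) : ℝ) := by congr 1; ring
    simp only [Pi.add_apply]
    rw [e1, e2]
    have p : 0 ≤ Real.exp (-x) * x ^ (-(1 / 2) : ℝ) := by positivity
    have := mul_le_mul_of_nonneg_left b p
    rw [one_pow] at this
    linarith
  have W : IntegrableOn (fun x : Fin n → ℝ =>
      ∏ j, Real.exp (-x j) * ((1 + x j) ^ N * x j ^ (-(1 / 2) : ℝ))) {x | ∀ j, 0 < x j} := by
    have e : {x : Fin n → ℝ | ∀ j, 0 < x j} = Set.univ.pi (fun _ => Ioi 0) := by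
      ext x; simp
    rw [e, IntegrableOn, volume_pi, Measure.restrict_pi_pi]
    exact Integrable.fintype_prod
      (f := fun _ x => Real.exp (-x) * ((1 + x) ^ N * x ^ (-(1 / 2) : ℝ))) (fun _ => w)
  refine Integrable.mono' (W.const_mul C) ((P_cont P hP).measurable.mul mg).aestronglyMeasurable ?_
  refine ae_restrict_of_forall_mem mO (fun x hx => ?_)
  have hx : ∀ j, 0 < x j := hx
  have hM : ∀ j, 1 + x j ≤ ∏ i, (1 + x i) := fun j => by
    rw [← Finset.mul_prod_erase _ _ (Finset.mem_univ j)]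
    refine le_mul_of_one_le_right (by linarith [hx j]) ?_
    exact Finset.one_le_prod (fun i _ => by linarith [hx i])
  set M := ∏ i, (1 + x i) with hMdef
  have hM1 : 1 ≤ M := Finset.one_le_prod (fun i _ => by linarith [hx i])
  have hD : ∏ k, ∏ j ∈ Finset.Ioi k, (x j - x k) ^ 2 ≤ M ^ (2 * n * n) := by
    calc ∏ k, ∏ j ∈ Finset.Ioi k, (x j - x k) ^ 2 ≤ ∏ _k : Fin n, M ^ (2 * n) := by
          refine Finset.prod_le_prod (fun _ _ => by positivity) (fun k _ => ?_)
          calc ∏ j ∈ Finset.Ioi k, (x j - x k) ^ 2 ≤ ∏ _j ∈ Finset.Ioi k, M ^ 2 := by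
                refine Finset.prod_le_prod (fun _ _ => by positivity) (fun j _ => ?_)
                refine sq_le_sq' ?_ ?_ <;> linarith [hx j, hx k, hM j, hM k]
            _ = M ^ (2 * (Finset.Ioi k).card) := by rw [Finset.prod_const, pow_mul]
            _ ≤ M ^ (2 * n) := pow_le_pow_right₀ hM1 (by
                have := (Finset.Ioi k).card_le_univ
                simp only [Fintype.card_fin] at this
                omega)
      _ = M ^ (2 * n * n) := by rw [Finset.prod_const, ← pow_mul]; simp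
  have e : ∏ j, Real.exp (-x j) * ((1 + x j) ^ N * x j ^ (-(1 / 2) : ℝ))
      = (Real.exp (-∑ j, x j) * M ^ (2 * n * n)) *
        ∏ j, ((1 + x j) ^ 2 * x j ^ (-(1 / 2) : ℝ)) := by
    rw [← Finset.sum_neg_distrib, Real.exp_sum, hMdef, ← Finset.prod_pow,
      ← Finset.prod_mul_distrib, ← Finset.prod_mul_distrib]
    refine Finset.prod_congr rfl (fun j _ => ?_)
    rw [hN]; ring
  rw [e, norm_mul, Real.norm_of_nonneg (P_nonneg P hP x), Real.norm_eq_abs, mul_left_comm, hP]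
  exact mul_le_mul (mul_le_mul_of_nonneg_left hD (by positivity)) (hg x hx) (abs_nonneg _)
    (by positivity)

end

end Pool.Agent.H.MP_58c014_an
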